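import Pool.Agent.Helper33.Tok.FCAST
import Pool.Agent.Helper33.Ram.REL

/-!
# REL: the operations on digits do the same as the operations on states
-/

namespace Pool.Agent.Helper33.Tok

open Pool.Agent.Helper65.LinSpace Finset Pool.Agent.Helper78.Tok
open Pool.Agent.Helper28.Ram (trc)
open Pool.Agent.Helper28.Ram.Mach (sgz)
open Pool.Agent.Helper33.Ram (ifz_pos eq01_pos eq01_neg lt01_pos lt01_neg
  le01_pos le01_neg)

/-! ### Codes -/

section

variable {p : ℕ} (m : Mach) (s : Mach.St p)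

theorem enc0 (k : ℕ) : m.enc s (7 * k) = (s.R k).val := by
  have h1 : 7 * k % 7 = 0 := by omega
  have h2 : 7 * k / 7 = k := by omega
  unfold Mach.enc
  rw [h1, h2]
  simp

theorem enc1 (k : ℕ) : m.enc s (7 * k + 1) = s.md k := by
  have h1 : (7 * k + 1) % 7 = 1 := by omega
  have h2 : (7 * k + 1) / 7 = k := by omega
  unfold Mach.enc
  rw [h1, h2]
  simp

theorem enc2 (k : ℕ) : m.enc s (7 * k + 2) = s.nd k := by
  have h1 : (7 * k + 2) % 7 = 2 := by omega
  have h2 : (7 * k + 2) / 7 = k := by omega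
  unfold Mach.enc
  rw [h1, h2]
  simp

theorem enc3 (k : ℕ) : m.enc s (7 * k + 3) = s.sg k := by
  have h1 : (7 * k + 3) % 7 = 3 := by omega
  have h2 : (7 * k + 3) / 7 = k := by omega
  unfold Mach.enc
  rw [h1, h2]
  simp

theorem enc4 (k : ℕ) : m.enc s (7 * k + 4) = dig 2 (s.qa (k / m.σ)) (k % m.σ) := by
  have h1 : (7 * k + 4) % 7 = 4 := by omega
  have h2 : (7 * k + 4) / 7 = k := by omega
  unfold Mach.enc
  rw [h1, h2]
  simp

theorem enc5 (k : ℕ) : m.enc s (7 * k + 5) = (s.ac k).val := by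
  have h1 : (7 * k + 5) % 7 = 5 := by omega
  have h2 : (7 * k + 5) / 7 = k := by omega
  unfold Mach.enc
  rw [h1, h2]
  simp

theorem enc6 (k : ℕ) : m.enc s (7 * k + 6) = (s.au k).val := by
  have h1 : (7 * k + 6) % 7 = 6 := by omega
  have h2 : (7 * k + 6) / 7 = k := by omega
  unfold Mach.enc
  rw [h1, h2]
  simp

end

/-- The entries of the digits. -/
structure Dat {p : ℕ} (m : Mach) (J K : ℕ) (a : ℕ → ℕ) (s : Mach.St p) : Prop where
  lt : ∀ x < 7 * J, a x < p
  R : ∀ k < J, a (7 * k) = (s.R k).val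
  md : ∀ k < J, a (7 * k + 1) = s.md k
  nd : ∀ k < J, a (7 * k + 2) = s.nd k
  sg : ∀ k < J, a (7 * k + 3) = s.sg k
  qa : ∀ k < J, a (7 * k + 4) = dig 2 (s.qa (k / m.σ)) (k % m.σ)
  ac : ∀ k < J, a (7 * k + 5) = (s.ac k).val
  au : ∀ k < J, a (7 * k + 6) = (s.au k).val
  q2 : ∀ t ≤ K, s.qa t < 2 ^ m.σ

theorem rel_iff {p : ℕ} (m : Mach) (J K : ℕ) (a : ℕ → ℕ) (s : Mach.St p) :
    m.Rel J K a s ↔ Dat m J K a s := by
  constructor
  · rintro ⟨h1, h2⟩
    refine ⟨fun x hx => (h1 x hx).2, fun k hk => ?_, fun k hk => ?_, fun k hk => ?_, fun k hk => ?_,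
      fun k hk => ?_, fun k hk => ?_, fun k hk => ?_, h2⟩
    · rw [(h1 (7 * k) (by omega)).1, enc0]
    · rw [(h1 (7 * k + 1) (by omega)).1, enc1]
    · rw [(h1 (7 * k + 2) (by omega)).1, enc2]
    · rw [(h1 (7 * k + 3) (by omega)).1, enc3]
    · rw [(h1 (7 * k + 4) (by omega)).1, enc4]
    · rw [(h1 (7 * k + 5) (by omega)).1, enc5]
    · rw [(h1 (7 * k + 6) (by omega)).1, enc6]
  · intro h
    refine ⟨fun x hx => ⟨?_, h.lt x hx⟩, h.q2⟩
    obtain ⟨k, c, hc, rfl⟩ : ∃ k c, c < 7 ∧ x = 7 * k + c :=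
      ⟨x / 7, x % 7, Nat.mod_lt _ (by norm_num), by omega⟩
    have hk : k < J := by omega
    interval_cases c
    · rw [add_zero, enc0, h.R k hk]
    · rw [enc1, h.md k hk]
    · rw [enc2, h.nd k hk]
    · rw [enc3, h.sg k hk]
    · rw [enc4, h.qa k hk]
    · rw [enc5, h.ac k hk]
    · rw [enc6, h.au k hk]

section

variable (m : Mach) (p l j : ℕ) (a : ℕ → ℕ) (k : ℕ)

theorem opA0 : m.opA p l j a (7 * k) = m.nR p l j a k % p := by
  have h1 : 7 * k % 7 = 0 := by omega
  have h2 : 7 * k / 7 = k := by omega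
  unfold Mach.opA
  rw [h1, h2]
  simp [ifz]

theorem opA1 : m.opA p l j a (7 * k + 1) = ifz (eq01 k l) (a (7 * k + 1)) (m.cMd p l j a) % p := by
  have h1 : (7 * k + 1) % 7 = 1 := by omega
  have h2 : (7 * k + 1) / 7 = k := by omega
  unfold Mach.opA
  rw [h1, h2]
  simp [ifz]

theorem opA2 : m.opA p l j a (7 * k + 2) = ifz (eq01 k l) (a (7 * k + 2)) (m.cNd p l j a) % p := by
  have h1 : (7 * k + 2) % 7 = 2 := by omega
  have h2 : (7 * k + 2) / 7 = k := by omega
  unfold Mach.opA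
  rw [h1, h2]
  simp [ifz]

theorem opA3 : m.opA p l j a (7 * k + 3) = ifz (eq01 k l) (a (7 * k + 3)) (m.cSg p l j a) % p := by
  have h1 : (7 * k + 3) % 7 = 3 := by omega
  have h2 : (7 * k + 3) / 7 = k := by omega
  unfold Mach.opA
  rw [h1, h2]
  simp [ifz]

theorem opA4 : m.opA p l j a (7 * k + 4) = m.nQ p l j a k % p := by
  have h1 : (7 * k + 4) % 7 = 4 := by omega
  have h2 : (7 * k + 4) / 7 = k := by omega
  unfold Mach.opA
  rw [h1, h2]
  simp [ifz]

theorem opA5 : m.opA p l j a (7 * k + 5) = m.nAc p l j a k % p := by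
  have h1 : (7 * k + 5) % 7 = 5 := by omega
  have h2 : (7 * k + 5) / 7 = k := by omega
  unfold Mach.opA
  rw [h1, h2]
  simp [ifz]

theorem opA6 : m.opA p l j a (7 * k + 6) = m.nAu p l j a k % p := by
  have h1 : (7 * k + 6) % 7 = 6 := by omega
  have h2 : (7 * k + 6) / 7 = k := by omega
  unfold Mach.opA
  rw [h1, h2]
  simp [ifz]

end

/-- A new state is built from its parts. -/
theorem build {p : ℕ} (m : Mach) (hp2 : 2 < p) {J K : ℕ} {a : ℕ → ℕ} {s : Mach.St p}
    (h : Dat m J K a s) {l j : ℕ} (R' : ℕ → ZMod p) (qa' : ℕ → ℕ) (ac' : ℕ → ZMod p)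
    (au' : ℕ → ZMod p) (c i g : ℕ)
    (hR : ∀ k < J, ((m.nR p l j a k : ℕ) : ZMod p) = R' k)
    (hc : m.cMd p l j a = c ∧ c < p) (hi : m.cNd p l j a = i ∧ i < p)
    (hg : m.cSg p l j a = g ∧ g < p)
    (hq : ∀ k < J, m.nQ p l j a k = dig 2 (qa' (k / m.σ)) (k % m.σ))
    (ha : ∀ k < J, ((m.nAc p l j a k : ℕ) : ZMod p) = ac' k)
    (hs : ∀ k < J, ((m.nAu p l j a k : ℕ) : ZMod p) = au' k)
    (hq2 : ∀ t ≤ K, qa' t < 2 ^ m.σ) :
    Dat m J K (trc (7 * J) (m.opA p l j a))
      (({ s with R := R', qa := qa', ac := ac', au := au' } : Mach.St p).call l c i g) := by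
  have hp : 0 < p := by omega
  have ht : ∀ x < 7 * J, trc (7 * J) (m.opA p l j a) x = m.opA p l j a x := fun x hx => if_pos hx
  have hv : ∀ n : ℕ, ∀ z : ZMod p, (n : ZMod p) = z → n % p = z.val := by
    intro n z hz
    rw [← hz, ZMod.val_natCast]
  refine ⟨fun x hx => ?_, fun k hk => ?_, fun k hk => ?_, fun k hk => ?_, fun k hk => ?_,
    fun k hk => ?_, fun k hk => ?_, fun k hk => ?_, hq2⟩
  · rw [ht x hx]
    exact Nat.mod_lt _ hp
  · rw [ht _ (by omega), opA0]
    exact hv _ _ (hR k hk)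
  · rw [ht _ (by omega), opA1]
    show _ = Function.update s.md l c k
    by_cases hkl : k = l
    · subst hkl
      rw [Function.update_self, ifz, eq01, if_pos rfl, if_neg (by norm_num), hc.1,
        Nat.mod_eq_of_lt hc.2]
    · rw [Function.update_of_ne hkl, ifz, eq01, if_neg hkl, if_pos rfl,
        Nat.mod_eq_of_lt (h.lt _ (by omega)), h.md k hk]
  · rw [ht _ (by omega), opA2]
    show _ = Function.update s.nd l i k
    by_cases hkl : k = l
    · subst hkl
      rw [Function.update_self, ifz, eq01, if_pos rfl, if_neg (by norm_num), hi.1,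
        Nat.mod_eq_of_lt hi.2]
    · rw [Function.update_of_ne hkl, ifz, eq01, if_neg hkl, if_pos rfl,
        Nat.mod_eq_of_lt (h.lt _ (by omega)), h.nd k hk]
  · rw [ht _ (by omega), opA3]
    show _ = Function.update s.sg l g k
    by_cases hkl : k = l
    · subst hkl
      rw [Function.update_self, ifz, eq01, if_pos rfl, if_neg (by norm_num), hg.1,
        Nat.mod_eq_of_lt hg.2]
    · rw [Function.update_of_ne hkl, ifz, eq01, if_neg hkl, if_pos rfl,
        Nat.mod_eq_of_lt (h.lt _ (by omega)), h.sg k hk]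
  · rw [ht _ (by omega), opA4, hq k hk]
    exact Nat.mod_eq_of_lt ((dig_lt (by norm_num) _ _).trans hp2)
  · rw [ht _ (by omega), opA5]
    exact hv _ _ (ha k hk)
  · rw [ht _ (by omega), opA6]
    exact hv _ _ (hs k hk)

section

variable {p : ℕ} {m : Mach} {J K : ℕ} {a : ℕ → ℕ} {s : Mach.St p}

theorem Dat.qN (hok : m.Ok) (hf : m.Fit p J K) (h : Dat m J K a s) {t : ℕ} (ht : t ≤ K) :
    m.qN a t = s.qa t := by
  have hσ := hok.hσ
  unfold Mach.qN
  rw [← tab_dig (q := 2) (s.qa t) m.σ (h.q2 t ht)]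
  refine tab_congr fun o ho => ?_
  have h1 : t * m.σ + o < J := by
    have h2 := hf.h3
    have h4 : t * m.σ ≤ K * m.σ := Nat.mul_le_mul_right _ ht
    have h5 : (K + 1) * m.σ = K * m.σ + m.σ := by ring
    omega
  rw [h.qa _ h1]
  have h2 : (t * m.σ + o) / m.σ = t := by
    rw [mul_comm, Nat.mul_add_div hσ, Nat.div_eq_of_lt ho, add_zero]
  have h3 : (t * m.σ + o) % m.σ = o := by
    rw [mul_comm, Nat.mul_add_mod, Nat.mod_eq_of_lt ho]
  rw [h2, h3]

variable [hpr : Fact p.Prime]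

theorem Dat.Rc (h : Dat m J K a s) {k : ℕ} (hk : k < J) :
    ((a (7 * k) : ℕ) : ZMod p) = s.R k := by
  rw [h.R k hk, ZMod.natCast_zmod_val]

theorem Dat.acc (h : Dat m J K a s) {k : ℕ} (hk : k < J) :
    ((a (7 * k + 5) : ℕ) : ZMod p) = s.ac k := by
  rw [h.ac k hk, ZMod.natCast_zmod_val]

theorem Dat.auc (h : Dat m J K a s) {k : ℕ} (hk : k < J) :
    ((a (7 * k + 6) : ℕ) : ZMod p) = s.au k := by
  rw [h.au k hk, ZMod.natCast_zmod_val]

/-- The registers stay the same or are changed without an evaluation. -/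
theorem rel_same (hf : m.Fit p J K) (h : Dat m J K a s) {l j : ℕ}
    (hY : m.isY a l = 0) (hZ : m.isZ p a l j = 0) (R' : ℕ → ZMod p) (c i g : ℕ)
    (hR : ∀ k < J, ((m.nR p l j a k : ℕ) : ZMod p) = R' k)
    (hc : m.cMd p l j a = c ∧ c < p) (hi : m.cNd p l j a = i ∧ i < p)
    (hg : m.cSg p l j a = g ∧ g < p) :
    Dat m J K (trc (7 * J) (m.opA p l j a)) (({ s with R := R' } : Mach.St p).call l c i g) := by
  refine build m hf.h5 h R' s.qa s.ac s.au c i g hR hc hi hg (fun k hk => ?_)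
    (fun k hk => ?_) (fun k hk => ?_) h.q2
  · unfold Mach.nQ
    rw [hY, hZ, zero_mul]
    unfold ifz
    split_ifs <;> first | exact h.qa k hk | simp_all
  · unfold Mach.nAc
    rw [hY, zero_mul, ifz_zero, h.acc hk]
  · unfold Mach.nAu
    rw [hY, zero_mul, ifz_zero, h.auc hk]

end

/-- The operations of a node. -/
theorem relN {p : ℕ} [hpr : Fact p.Prime] {m : Mach} {J K : ℕ} {a : ℕ → ℕ} {s : Mach.St p}
    (hf : m.Fit p J K) (h : Dat m J K a s) {l j : ℕ}
    (hl : l < K * (m.G + 2)) (hm : l % (m.G + 2) ≠ 0) :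
    Dat m J K (trc (7 * J) (m.opA p l j a)) (m.op l j s) := by
  have hp := hf.h5
  have hG := hf.h4
  have hJ : l + 1 < J := lt_of_le_of_lt hl hf.h2
  have e1 := h.md (l + 1) hJ
  have e2 := h.nd (l + 1) hJ
  have e3 := h.sg (l + 1) hJ
  have l3 := h.lt (7 * (l + 1) + 3) (by omega)
  rw [e3] at l3
  have l2 := h.lt (7 * (l + 1) + 2) (by omega)
  rw [e2] at l2
  have hY : m.isY a l = 0 := by
    unfold Mach.isY
    rw [eq01_neg hm, zero_mul]
  have hZ : m.isZ p a l j = 0 := by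
    unfold Mach.isZ
    rw [eq01_neg hm, zero_mul]
  have hop : m.op l j s = m.opN l (l % (m.G + 2)) j s := by
    unfold Mach.op
    rw [if_neg hm]
  rw [hop]
  have hpos : 0 < l % (m.G + 2) := Nat.pos_of_ne_zero hm
  by_cases hA : s.md (l + 1) = 1 ∧ s.nd (l + 1) < l % (m.G + 2)
  · have hN : m.isN a l = 1 := by
      unfold Mach.isN
      rw [e1, e2, lt01_pos hpos, eq01_pos hA.1, lt01_pos hA.2]
    have hw : j % (2 * m.G + 3) < 2 * m.G + 3 := Nat.mod_lt _ (by omega)
    have hR0 : j % (2 * m.G + 3) ≠ 0 → j % (2 * m.G + 3) ≠ 2 * m.G + 2 →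
        ∀ k < J, ((m.nR p l j a k : ℕ) : ZMod p) = s.R k := by
      intro h0 h1 k hk
      unfold Mach.nR
      rw [hY, ifz_zero, hZ, ifz_zero, eq01_neg h1, ifz_zero, ifz_pos h0]
      unfold ifz
      split_ifs <;> exact h.Rc hk
    unfold Mach.opN
    rw [if_pos hA]
    by_cases h0 : j % (2 * m.G + 3) = 0
    · rw [if_pos h0]
      refine rel_same hf h hY hZ _ 0 0 0 (fun k hk => ?_) ⟨?_, by omega⟩ ⟨?_, by omega⟩
        ⟨?_, by omega⟩
      · unfold Mach.nR Mach.scaR
        rw [hY, hZ, hN, ifz_zero, ifz_zero, h0, ifz_zero, one_mul, e2]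
        by_cases hk2 : k < s.nd (l + 1) * m.wn
        · rw [lt01_pos hk2, ifz_pos one_ne_zero, if_pos ⟨Nat.zero_le _, by omega⟩, ZMod.natCast_mod, Nat.cast_mul,
            h.Rc hk]
        · rw [lt01_neg hk2, ifz_zero, if_neg (by omega), h.Rc hk]
      · unfold Mach.cMd
        rw [hY, ifz_zero, hZ, ifz_zero, hN, ifz_pos one_ne_zero, h0, ifz_zero]
      · unfold Mach.cNd
        rw [hY, ifz_zero, hZ, ifz_zero, hN, ifz_pos one_ne_zero, h0, ifz_zero]
      · unfold Mach.cSg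
        rw [hY, ifz_zero, hZ, ifz_zero, hN, ifz_pos one_ne_zero, h0, ifz_zero]
    rw [if_neg h0]
    by_cases h1 : j % (2 * m.G + 3) ≤ m.G
    · rw [if_pos h1]
      have hR := hR0 h0 (by omega)
      by_cases h2 : j % (2 * m.G + 3) - 1 < s.nd (l + 1)
      · rw [if_pos h2]
        refine rel_same hf h hY hZ _ 1 (j % (2 * m.G + 3) - 1) 0 hR ⟨?_, by omega⟩ ⟨?_, by omega⟩
          ⟨?_, by omega⟩
        · unfold Mach.cMd
          rw [hY, ifz_zero, hZ, ifz_zero, hN, ifz_pos one_ne_zero, ifz_pos h0, le01_pos h1,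
            ifz_pos one_ne_zero, e2, lt01_pos h2]
        · unfold Mach.cNd
          rw [hY, ifz_zero, hZ, ifz_zero, hN, ifz_pos one_ne_zero, ifz_pos h0, le01_pos h1,
            ifz_pos one_ne_zero, e2, lt01_pos h2, one_mul]
        · unfold Mach.cSg
          rw [hY, ifz_zero, hZ, ifz_zero, hN, ifz_pos one_ne_zero, ifz_pos h0, le01_pos h1,
            ifz_pos one_ne_zero]
      · rw [if_neg h2]
        refine rel_same hf h hY hZ _ 0 0 0 hR ⟨?_, by omega⟩ ⟨?_, by omega⟩ ⟨?_, by omega⟩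
        · unfold Mach.cMd
          rw [hY, ifz_zero, hZ, ifz_zero, hN, ifz_pos one_ne_zero, ifz_pos h0, le01_pos h1,
            ifz_pos one_ne_zero, e2, lt01_neg h2]
        · unfold Mach.cNd
          rw [hY, ifz_zero, hZ, ifz_zero, hN, ifz_pos one_ne_zero, ifz_pos h0, le01_pos h1,
            ifz_pos one_ne_zero, e2, lt01_neg h2, zero_mul]
        · unfold Mach.cSg
          rw [hY, ifz_zero, hZ, ifz_zero, hN, ifz_pos one_ne_zero, ifz_pos h0, le01_pos h1,
            ifz_pos one_ne_zero]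
    rw [if_neg h1]
    by_cases h3 : j % (2 * m.G + 3) = m.G + 1
    · rw [if_pos h3]
      have hR := hR0 h0 (by omega)
      refine rel_same hf h hY hZ _ 2 (s.nd (l + 1)) (s.sg (l + 1)) hR ⟨?_, by omega⟩ ⟨?_, l2⟩ ⟨?_, l3⟩
      · unfold Mach.cMd
        rw [hY, ifz_zero, hZ, ifz_zero, hN, ifz_pos one_ne_zero, ifz_pos h0, le01_neg h1,
          ifz_zero, eq01_pos h3, ifz_pos one_ne_zero]
      · unfold Mach.cNd
        rw [hY, ifz_zero, hZ, ifz_zero, hN, ifz_pos one_ne_zero, ifz_pos h0, le01_neg h1,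
          ifz_zero, eq01_pos h3, ifz_pos one_ne_zero, e2]
      · unfold Mach.cSg
        rw [hY, ifz_zero, hZ, ifz_zero, hN, ifz_pos one_ne_zero, ifz_pos h0, le01_neg h1,
          ifz_zero, eq01_pos h3, ifz_pos one_ne_zero, e3]
    rw [if_neg h3]
    by_cases h4 : j % (2 * m.G + 3) ≤ 2 * m.G + 1
    · rw [if_pos h4]
      have hR := hR0 h0 (by omega)
      by_cases h5 : j % (2 * m.G + 3) - (m.G + 2) < s.nd (l + 1)
      · rw [if_pos h5]
        refine rel_same hf h hY hZ _ 1 (j % (2 * m.G + 3) - (m.G + 2)) 1 hR ⟨?_, by omega⟩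
          ⟨?_, by omega⟩ ⟨?_, by omega⟩
        · unfold Mach.cMd
          rw [hY, ifz_zero, hZ, ifz_zero, hN, ifz_pos one_ne_zero, ifz_pos h0, le01_neg h1,
            ifz_zero, eq01_neg h3, ifz_zero, le01_pos h4, ifz_pos one_ne_zero, e2, lt01_pos h5]
        · unfold Mach.cNd
          rw [hY, ifz_zero, hZ, ifz_zero, hN, ifz_pos one_ne_zero, ifz_pos h0, le01_neg h1,
            ifz_zero, eq01_neg h3, ifz_zero, le01_pos h4, ifz_pos one_ne_zero, e2, lt01_pos h5,
            one_mul]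
        · unfold Mach.cSg
          rw [hY, ifz_zero, hZ, ifz_zero, hN, ifz_pos one_ne_zero, ifz_pos h0, le01_neg h1,
            ifz_zero, eq01_neg h3, ifz_zero, le01_pos h4, ifz_pos one_ne_zero, e2, lt01_pos h5]
      · rw [if_neg h5]
        refine rel_same hf h hY hZ _ 0 0 0 hR ⟨?_, by omega⟩ ⟨?_, by omega⟩ ⟨?_, by omega⟩
        · unfold Mach.cMd
          rw [hY, ifz_zero, hZ, ifz_zero, hN, ifz_pos one_ne_zero, ifz_pos h0, le01_neg h1,
            ifz_zero, eq01_neg h3, ifz_zero, le01_pos h4, ifz_pos one_ne_zero, e2, lt01_neg h5]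
        · unfold Mach.cNd
          rw [hY, ifz_zero, hZ, ifz_zero, hN, ifz_pos one_ne_zero, ifz_pos h0, le01_neg h1,
            ifz_zero, eq01_neg h3, ifz_zero, le01_pos h4, ifz_pos one_ne_zero, e2, lt01_neg h5,
            zero_mul]
        · unfold Mach.cSg
          rw [hY, ifz_zero, hZ, ifz_zero, hN, ifz_pos one_ne_zero, ifz_pos h0, le01_neg h1,
            ifz_zero, eq01_neg h3, ifz_zero, le01_pos h4, ifz_pos one_ne_zero, e2, lt01_neg h5]
    · rw [if_neg h4]
      have h6 : j % (2 * m.G + 3) = 2 * m.G + 2 := by omega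
      refine rel_same hf h hY hZ _ 0 0 0 (fun k hk => ?_) ⟨?_, by omega⟩ ⟨?_, by omega⟩
        ⟨?_, by omega⟩
      · unfold Mach.nR Mach.scaR
        rw [hY, hZ, hN, ifz_zero, ifz_zero, ifz_pos h0, eq01_pos h6, ifz_pos one_ne_zero, one_mul, e2]
        by_cases hk2 : k < s.nd (l + 1) * m.wn
        · rw [lt01_pos hk2, ifz_pos one_ne_zero, if_pos ⟨Nat.zero_le _, by omega⟩, ZMod.natCast_mod, Nat.cast_mul,
            h.Rc hk, invN_cast hp]
        · rw [lt01_neg hk2, ifz_zero, if_neg (by omega), h.Rc hk]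
      · unfold Mach.cMd
        rw [hY, ifz_zero, hZ, ifz_zero, hN, ifz_pos one_ne_zero, ifz_pos h0, le01_neg h1,
          ifz_zero, eq01_neg h3, ifz_zero, le01_neg h4, ifz_zero]
      · unfold Mach.cNd
        rw [hY, ifz_zero, hZ, ifz_zero, hN, ifz_pos one_ne_zero, ifz_pos h0, le01_neg h1,
          ifz_zero, eq01_neg h3, ifz_zero, le01_neg h4, ifz_zero]
      · unfold Mach.cSg
        rw [hY, ifz_zero, hZ, ifz_zero, hN, ifz_pos one_ne_zero, ifz_pos h0, le01_neg h1,
          ifz_zero, eq01_neg h3, ifz_zero, le01_neg h4, ifz_zero]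
  · have hN : m.isN a l = 0 := by
      unfold Mach.isN
      rw [e1, e2, lt01_pos hpos, one_mul]
      by_cases h1 : s.md (l + 1) = 1
      · rw [lt01_neg fun h2 => hA ⟨h1, h2⟩, mul_zero]
      · rw [eq01_neg h1, zero_mul]
    have hR : ∀ k < J, ((m.nR p l j a k : ℕ) : ZMod p) = s.R k := by
      intro k hk
      unfold Mach.nR
      rw [hY, hZ, hN, ifz_zero, ifz_zero, zero_mul, ifz_zero, h.Rc hk]
    unfold Mach.opN
    rw [if_neg hA]
    by_cases hB : s.md (l + 1) = 2 ∧ s.nd (l + 1) ≤ m.G ∧ j = 0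
    · have hP : m.isP a l j = 1 := by
        unfold Mach.isP
        rw [e1, e2, lt01_pos hpos, eq01_pos hB.1, le01_pos hB.2.1, eq01_pos hB.2.2]
      rw [if_pos hB]
      refine rel_same hf h hY hZ _ 2 (s.nd (l + 1)) (s.sg (l + 1)) hR ⟨?_, by omega⟩ ⟨?_, l2⟩ ⟨?_, l3⟩
      · unfold Mach.cMd
        rw [hY, hZ, hN, ifz_zero, ifz_zero, ifz_zero, hP, ifz_pos one_ne_zero]
      · unfold Mach.cNd
        rw [hY, hZ, hN, ifz_zero, ifz_zero, ifz_zero, hP, ifz_pos one_ne_zero, e2]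
      · unfold Mach.cSg
        rw [hY, hZ, hN, ifz_zero, ifz_zero, ifz_zero, hP, ifz_pos one_ne_zero, e3]
    · have hP : m.isP a l j = 0 := by
        unfold Mach.isP
        rw [e1, e2, lt01_pos hpos, one_mul]
        by_cases h1 : s.md (l + 1) = 2
        · by_cases h2 : s.nd (l + 1) ≤ m.G
          · rw [eq01_neg fun h3 => hB ⟨h1, h2, h3⟩, mul_zero]
          · rw [le01_neg h2, mul_zero, zero_mul]
        · rw [eq01_neg h1, zero_mul, zero_mul]
      rw [if_neg hB]
      refine rel_same hf h hY hZ _ 0 0 0 hR ⟨?_, by omega⟩ ⟨?_, by omega⟩ ⟨?_, by omega⟩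
      · unfold Mach.cMd
        rw [hY, hZ, hN, ifz_zero, ifz_zero, ifz_zero, hP, ifz_zero]
      · unfold Mach.cNd
        rw [hY, hZ, hN, ifz_zero, ifz_zero, ifz_zero, hP, ifz_zero]
      · unfold Mach.cSg
        rw [hY, hZ, hN, ifz_zero, ifz_zero, ifz_zero, hP, ifz_zero]

/-- The registers of the content. -/
theorem rgn_pos {lo n x : ℕ} (h : lo ≤ x ∧ x < lo + n) : rgn lo n x = 1 := by
  unfold rgn
  rw [le01_pos h.1, lt01_pos h.2]

theorem rgn_neg {lo n x : ℕ} (h : ¬(lo ≤ x ∧ x < lo + n)) : rgn lo n x = 0 := by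
  unfold rgn
  by_cases h1 : lo ≤ x
  · rw [lt01_neg fun h2 => h ⟨h1, h2⟩, mul_zero]
  · rw [le01_neg h1, zero_mul]

/-- Multiplication of a range of registers. -/
theorem sca_case {p : ℕ} [Fact p.Prime] {m : Mach} {J K : ℕ} {a : ℕ → ℕ} {s : Mach.St p}
    (h : Dat m J K a s) {x : ℕ} (hx : x < J) (lo n c : ℕ) (u : ZMod p) (hc : ((c : ℕ) : ZMod p) = u) :
    ((ifz (rgn lo n x) (a (7 * x)) (c * a (7 * x) % p) : ℕ) : ZMod p) = Mach.scaR lo n u s.R x := by
  unfold Mach.scaR
  by_cases h1 : lo ≤ x ∧ x < lo + n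
  · rw [rgn_pos h1, ifz_pos one_ne_zero, if_pos h1, ZMod.natCast_mod, Nat.cast_mul, hc, h.Rc hx]
  · rw [rgn_neg h1, ifz_zero, if_neg h1, h.Rc hx]

/-- The variables of a node. -/
theorem vars_cast {p : ℕ} [Fact p.Prime] {m : Mach} {J K : ℕ} {a : ℕ → ℕ} {s : Mach.St p}
    (hf : m.Fit p J K) (h : Dat m J K a s) {i : ℕ} (hi : i ≤ m.G) (k : ℕ) (_ : 0 < p) (_ : 0 < p)
    (j' : ℕ) (hj' : j' < m.nv i) :
    m.varN i (fun i => a (7 * i)) (fun o => a (7 * (m.cl k + o))) j' < p ∧
      ((m.varN i (fun i => a (7 * i)) (fun o => a (7 * (m.cl k + o))) j' : ℕ) : ZMod p) =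
        m.vars p i s.R (fun o => s.R (m.cl k + o)) j' := by
  have h1 := hf.h1
  have h2 : i * m.wn ≤ m.G * m.wn := Nat.mul_le_mul_right _ hi
  unfold Mach.nv at hj'
  unfold Mach.varN Mach.vars
  by_cases h3 : j' < i * m.wn
  · have h4 : j' < J := by omega
    rw [lt01_pos h3, ifz_pos one_ne_zero, if_pos h3]
    exact ⟨h.lt _ (by omega), h.Rc h4⟩
  · have h4 : m.cl k + (j' - i * m.wn) < J := by
      have h5 : k % 2 * m.wc ≤ 1 * m.wc := Nat.mul_le_mul_right _ (by omega)
      unfold Mach.cl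
      omega
    rw [lt01_neg h3, ifz_zero, if_neg h3]
    exact ⟨h.lt _ (by omega), h.Rc h4⟩

/-- The operations of the evaluation of the polynomials of a node before `G`. -/
theorem relY {p : ℕ} [hpr : Fact p.Prime] {m : Mach} {J K : ℕ} {a : ℕ → ℕ} {s : Mach.St p}
    (hF : Pool.Agent.Helper78.Tok.FCAST_stmt) (hok : m.Ok) (hf : m.Fit p J K) (h : Dat m J K a s)
    {l j : ℕ} (hl : l < K * (m.G + 2)) (hm : l % (m.G + 2) = 0)
    (hA : s.md (l + 1) = 2 ∧ s.nd (l + 1) < m.G) :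
    Dat m J K (trc (7 * J) (m.opA p l j a))
      (m.opY l (l / (m.G + 2)) (j / m.ny p) (j % m.ny p) s) := by
  have hp := hf.h5
  have hG := hf.h4
  have hJ : l + 1 < J := lt_of_le_of_lt hl hf.h2
  have e1 := h.md (l + 1) hJ
  have e2 := h.nd (l + 1) hJ
  have e3 := h.sg (l + 1) hJ
  have hkK : l / (m.G + 2) < K := by
    rw [Nat.div_lt_iff_lt_mul (by omega)]
    exact hl
  have hJk : l / (m.G + 2) < J := by
    have h3 := hf.h2
    have h4 : K ≤ K * (m.G + 2) := Nat.le_mul_of_pos_right _ (by omega)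
    omega
  have hacc := h.acc hJk
  have hauc := h.auc hJk
  have hY : m.isY a l = 1 := by
    unfold Mach.isY
    rw [eq01_pos hm, e1, e2, eq01_pos hA.1, lt01_pos hA.2]
  have hnR : ∀ x, m.nR p l j a x = m.yR p (l / (m.G + 2)) (s.nd (l + 1)) (j / m.ny p)
      (j % m.ny p) (s.sg (l + 1)) (a (7 * (l / (m.G + 2)) + 5)) a x := by
    intro x
    unfold Mach.nR
    rw [hY, ifz_pos one_ne_zero, e2, e3]
  have hMd : m.cMd p l j a = ifz (m.isL p (j % m.ny p)) (lt01 (j % m.ny p % 3) 2) 0 := by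
    unfold Mach.cMd
    rw [hY, ifz_pos one_ne_zero]
  have hNd : m.cNd p l j a = ifz (m.isL p (j % m.ny p)) (lt01 (j % m.ny p % 3) 2 * m.G) 0 := by
    unfold Mach.cNd
    rw [hY, ifz_pos one_ne_zero]
  have hSg : m.cSg p l j a = ifz (m.isL p (j % m.ny p)) (eq01 (j % m.ny p % 3) 1) 0 := by
    unfold Mach.cSg
    rw [hY, ifz_pos one_ne_zero]
  have hnQ : ∀ x, m.nQ p l j a x = ifz (eq01 (x / m.σ) (l / (m.G + 2))) (a (7 * x + 4))
      (ifz (m.isL p (j % m.ny p))
        (ifz (j % m.ny p % 3)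
          (dig 2 (m.A (dig (2 ^ m.σ) (j / m.ny p) (j % m.ny p / 3 / (p - 1)))) (x % m.σ))
          (a (7 * x + 4)))
        (a (7 * x + 4))) := by
    intro x
    unfold Mach.nQ
    rw [hY, ifz_pos one_ne_zero]
  have hnAc : ∀ x, m.nAc p l j a x = ifz (eq01 x (l / (m.G + 2))) (a (7 * x + 5))
      (ifz (m.isL p (j % m.ny p))
        (ifz (j % m.ny p % 3)
          (ifz (j % m.ny p) 1 (a (7 * x + 5)))
          (ifz (j % m.ny p % 3 - 1) (a (7 * x + 5))
            (ifz (eq01 (j % m.ny p / 3 % (p - 1)) (p - 2)) (a (7 * x + 5))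
              (a (7 * x + 5) * (p - a (7 * x + 6)) % p))))
        (a (7 * x + 5))) := by
    intro x
    unfold Mach.nAc
    rw [hY, one_mul]
  have hnAu : ∀ x, m.nAu p l j a x = ifz (eq01 x (l / (m.G + 2))) (a (7 * x + 6))
      (ifz (m.isL p (j % m.ny p))
        (ifz (j % m.ny p % 3)
          (ifz (j % m.ny p / 3 % (p - 1)) 0 (a (7 * x + 6)))
          (ifz (j % m.ny p % 3 - 1)
            ((a (7 * x + 6) + fhG p (m.nv (s.nd (l + 1)))
              (m.chk (s.nd (l + 1)) (j / m.ny p) (j % m.ny p / 3 / (p - 1))) 0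
              (m.varN (s.nd (l + 1)) (fun i => a (7 * i))
                fun o => a (7 * (m.cl (l / (m.G + 2)) + o)))) % p)
            (a (7 * x + 6))))
        (a (7 * x + 6))) := by
    intro x
    unfold Mach.nAu
    rw [hY, one_mul, e2]
  generalize hk : l / (m.G + 2) = k at *
  generalize hy : j / m.ny p = y at *
  generalize he : j % m.ny p = e at *
  generalize hi : s.nd (l + 1) = i at *
  generalize hg : s.sg (l + 1) = g at *
  unfold Mach.opY
  rw [hi, hg]
  by_cases h1 : e = 3 * (m.b * (p - 1))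
  · rw [if_pos h1]
    have hL : m.isL p e = 1 := eq01_pos h1
    refine build m hp h _ s.qa s.ac s.au 0 0 0 (fun x hx => ?_) ⟨?_, by omega⟩ ⟨?_, by omega⟩
      ⟨?_, by omega⟩ (fun x hx => ?_) (fun x hx => ?_) (fun x hx => ?_) h.q2
    · rw [hnR x]
      unfold Mach.yR Mach.addR Mach.lo Mach.ln
      rw [hL, ifz_pos one_ne_zero, if_pos hA.2, if_pos hA.2]
      by_cases h2 : i * m.wn ≤ x ∧ x < i * m.wn + m.wn
      · rw [rgn_pos h2, ifz_pos one_ne_zero, if_pos h2, ZMod.natCast_mod, Nat.cast_add,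
          Nat.cast_mul, Nat.cast_mul, h.Rc hx, hacc]
        congr 1
        unfold bitZ
        by_cases hs : g = 0
        · rw [hs, ifz_zero, Nat.cast_sub (by omega), ZMod.natCast_self, sgz, if_pos rfl]
          push_cast
          ring
        · rw [ifz_pos hs, sgz, if_neg hs]
          push_cast
          ring
      · rw [rgn_neg h2, ifz_zero, if_neg h2, h.Rc hx]
    · rw [hMd, hL, ifz_pos one_ne_zero]
    · rw [hNd, hL, ifz_pos one_ne_zero]
    · rw [hSg, hL, ifz_pos one_ne_zero]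
    · rw [hnQ x, hL, ifz_pos one_ne_zero]
      unfold ifz
      split_ifs <;> exact h.qa x hx
    · rw [hnAc x, hL, ifz_pos one_ne_zero]
      unfold ifz
      split_ifs <;> exact h.acc hx
    · rw [hnAu x, hL, ifz_pos one_ne_zero]
      unfold ifz
      split_ifs <;> exact h.auc hx
  rw [if_neg h1]
  have hL : m.isL p e = 0 := eq01_neg h1
  rw [hL, ifz_zero] at hMd hNd hSg
  by_cases h2 : e % 3 = 0
  · rw [if_pos h2]
    refine build m hp h _ _ _ _ 1 m.G 0 (fun x hx => ?_) ⟨?_, by omega⟩ ⟨?_, hG⟩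
      ⟨?_, by omega⟩ (fun x hx => ?_) (fun x hx => ?_) (fun x hx => ?_) (fun t ht => ?_)
    · rw [hnR x]
      unfold Mach.yR
      rw [hL, ifz_zero, h2, ifz_zero]
      exact sca_case h hx _ _ _ _ rfl
    · rw [hMd, h2, lt01_pos (by norm_num)]
    · rw [hNd, h2, lt01_pos (by norm_num), one_mul]
    · rw [hSg, h2, eq01_neg (by norm_num)]
    · rw [hnQ x, hL, ifz_zero, h2, ifz_zero]
      by_cases h3 : x / m.σ = k
      · rw [eq01_pos h3, ifz_pos one_ne_zero, h3, Function.update_self]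
      · rw [eq01_neg h3, ifz_zero, Function.update_of_ne h3, h.qa x hx]
    · rw [hnAc x, hL, ifz_zero, h2, ifz_zero]
      by_cases h3 : x = k
      · rw [eq01_pos h3, ifz_pos one_ne_zero, h3, Function.update_self]
        by_cases h4 : e = 0
        · rw [h4, ifz_zero, if_pos rfl, Nat.cast_one]
        · rw [ifz_pos h4, if_neg h4, hacc]
      · rw [eq01_neg h3, ifz_zero, Function.update_of_ne h3, h.acc hx]
    · rw [hnAu x, hL, ifz_zero, h2, ifz_zero]
      by_cases h3 : x = k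
      · rw [eq01_pos h3, ifz_pos one_ne_zero, h3, Function.update_self]
        by_cases h4 : e / 3 % (p - 1) = 0
        · rw [h4, ifz_zero, if_pos rfl, Nat.cast_zero]
        · rw [ifz_pos h4, if_neg h4, hauc]
      · rw [eq01_neg h3, ifz_zero, Function.update_of_ne h3, h.auc hx]
    · by_cases ht2 : t = k
      · rw [ht2, Function.update_self]
        exact hok.hA _
      · rw [Function.update_of_ne ht2]
        exact h.q2 t ht
  rw [if_neg h2]
  by_cases h3 : e % 3 = 1
  · rw [if_pos h3]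
    refine build m hp h s.R s.qa s.ac _ 1 m.G 1 (fun x hx => ?_) ⟨?_, by omega⟩ ⟨?_, hG⟩
      ⟨?_, by omega⟩ (fun x hx => ?_) (fun x hx => ?_) (fun x hx => ?_) h.q2
    · rw [hnR x]
      unfold Mach.yR
      rw [hL, ifz_zero, h3, ifz_pos one_ne_zero, Nat.sub_self, ifz_zero]
      unfold ifz
      split_ifs <;> exact h.Rc hx
    · rw [hMd, h3, lt01_pos (by norm_num)]
    · rw [hNd, h3, lt01_pos (by norm_num), one_mul]
    · rw [hSg, h3, eq01_pos rfl]
    · rw [hnQ x, hL, ifz_zero, h3, ifz_pos one_ne_zero]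
      unfold ifz
      split_ifs <;> exact h.qa x hx
    · rw [hnAc x, hL, ifz_zero, h3, ifz_pos one_ne_zero, Nat.sub_self, ifz_zero]
      unfold ifz
      split_ifs <;> exact h.acc hx
    · rw [hnAu x, hL, ifz_zero, h3, ifz_pos one_ne_zero, Nat.sub_self, ifz_zero]
      by_cases h4 : x = k
      · rw [eq01_pos h4, ifz_pos one_ne_zero, h4, Function.update_self, ZMod.natCast_mod,
          Nat.cast_add, hauc]
        congr 1
        refine hF p _ _ _ _ _ fun j' hj' => ?_
        exact vars_cast hf h hA.2.le k (by omega) (by omega) j' hj'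
      · rw [eq01_neg h4, ifz_zero, Function.update_of_ne h4, h.auc hx]
  rw [if_neg h3]
  have h4 : e % 3 = 2 := by omega
  refine build m hp h _ s.qa _ s.au 0 0 0 (fun x hx => ?_) ⟨?_, by omega⟩ ⟨?_, by omega⟩
    ⟨?_, by omega⟩ (fun x hx => ?_) (fun x hx => ?_) (fun x hx => ?_) h.q2
  · rw [hnR x]
    unfold Mach.yR
    rw [hL, ifz_zero, h4, ifz_pos two_ne_zero, ifz_pos (c := 2 - 1) (by norm_num)]
    exact sca_case h hx _ _ _ _ (invN_cast hp _)
  · rw [hMd, h4, lt01_neg (by norm_num)]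
  · rw [hNd, h4, lt01_neg (by norm_num), zero_mul]
  · rw [hSg, h4, eq01_neg (by norm_num)]
  · rw [hnQ x, hL, ifz_zero, h4, ifz_pos two_ne_zero]
    unfold ifz
    split_ifs <;> exact h.qa x hx
  · rw [hnAc x, hL, ifz_zero, h4, ifz_pos two_ne_zero, ifz_pos (c := 2 - 1) (by norm_num)]
    by_cases h5 : x = k
    · rw [eq01_pos h5, ifz_pos one_ne_zero, h5, Function.update_self]
      by_cases h6 : e / 3 % (p - 1) = p - 2
      · have h7 := h.lt (7 * k + 6) (by omega)
        rw [eq01_pos h6, ifz_pos one_ne_zero, if_pos h6, ZMod.natCast_mod, Nat.cast_mul,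
          Nat.cast_sub h7.le, ZMod.natCast_self, zero_sub, hacc, hauc]
      · rw [eq01_neg h6, ifz_zero, if_neg h6, hacc]
    · rw [eq01_neg h5, ifz_zero, Function.update_of_ne h5, h.acc hx]
  · rw [hnAu x, hL, ifz_zero, h4, ifz_pos two_ne_zero, ifz_pos (c := 2 - 1) (by norm_num)]
    unfold ifz
    split_ifs <;> exact h.auc hx

/-- The operations of the evaluation of the polynomials of the node `G`. -/
theorem relZ {p : ℕ} [hpr : Fact p.Prime] {m : Mach} {J K : ℕ} {a : ℕ → ℕ} {s : Mach.St p}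
    (hF : Pool.Agent.Helper78.Tok.FCAST_stmt) (hok : m.Ok) (hf : m.Fit p J K) (h : Dat m J K a s)
    {l j : ℕ} (hl : l < K * (m.G + 2)) (hm : l % (m.G + 2) = 0)
    (hA : s.md (l + 1) = 2 ∧ s.nd (l + 1) = m.G ∧ j < 3 * (p - 1)) :
    Dat m J K (trc (7 * J) (m.opA p l j a)) (m.opZ l (l / (m.G + 2)) j s) := by
  have hp := hf.h5
  have hG := hf.h4
  have hσ := hok.hσ
  have hJ : l + 1 < J := lt_of_le_of_lt hl hf.h2
  have e1 := h.md (l + 1) hJ
  have e2 := h.nd (l + 1) hJ
  have e3 := h.sg (l + 1) hJ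
  have hkK : l / (m.G + 2) < K := by
    rw [Nat.div_lt_iff_lt_mul (by omega)]
    exact hl
  have hJk : l / (m.G + 2) < J := by
    have h3 := hf.h2
    have h4 : K ≤ K * (m.G + 2) := Nat.le_mul_of_pos_right _ (by omega)
    omega
  have hqk : m.qN a (l / (m.G + 2) + 1) = s.qa (l / (m.G + 2) + 1) := h.qN hok hf hkK
  have hY : m.isY a l = 0 := by
    unfold Mach.isY
    rw [e1, e2, lt01_neg (by omega), mul_zero, mul_zero]
  have hZ : m.isZ p a l j = 1 := by
    unfold Mach.isZ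
    rw [eq01_pos hm, e1, e2, eq01_pos hA.1, eq01_pos hA.2.1, lt01_pos hA.2.2]
  have hnR : ∀ x, m.nR p l j a x = m.zR p (l / (m.G + 2)) (s.qa (l / (m.G + 2) + 1)) j
      (s.sg (l + 1)) a x := by
    intro x
    unfold Mach.nR
    rw [hY, hZ, ifz_zero, ifz_pos one_ne_zero, hqk, e3]
  have hMd : m.cMd p l j a = lt01 (j % 3) 2 := by
    unfold Mach.cMd
    rw [hY, hZ, ifz_zero, ifz_pos one_ne_zero]
  have hNd : m.cNd p l j a = lt01 (j % 3) 2 * m.G := by
    unfold Mach.cNd
    rw [hY, hZ, ifz_zero, ifz_pos one_ne_zero]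
  have hSg : m.cSg p l j a = eq01 (j % 3) 1 := by
    unfold Mach.cSg
    rw [hY, hZ, ifz_zero, ifz_pos one_ne_zero]
  have hnQ : ∀ x, m.nQ p l j a x = ifz (eq01 (x / m.σ) (l / (m.G + 2))) (a (7 * x + 4))
      (ifz (eq01 (j % 3) 0) (a (7 * x + 4)) (a (7 * (x + m.σ) + 4))) := by
    intro x
    unfold Mach.nQ
    rw [hY, hZ, ifz_zero, one_mul]
  have hAc : ∀ x < J, ((m.nAc p l j a x : ℕ) : ZMod p) = s.ac x := by
    intro x hx
    unfold Mach.nAc
    rw [hY, zero_mul, ifz_zero, h.acc hx]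
  have hAu : ∀ x < J, ((m.nAu p l j a x : ℕ) : ZMod p) = s.au x := by
    intro x hx
    unfold Mach.nAu
    rw [hY, zero_mul, ifz_zero, h.auc hx]
  generalize hk : l / (m.G + 2) = k at *
  generalize hg : s.sg (l + 1) = g at *
  unfold Mach.opZ
  rw [hg]
  by_cases h2 : j % 3 = 0
  · rw [if_pos h2]
    refine build m hp h _ _ s.ac s.au 1 m.G 0 (fun x hx => ?_) ⟨?_, by omega⟩ ⟨?_, hG⟩
      ⟨?_, by omega⟩ (fun x hx => ?_) hAc hAu (fun t ht => ?_)
    · rw [hnR x]
      unfold Mach.zR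
      rw [h2, ifz_zero]
      exact sca_case h hx _ _ _ _ rfl
    · rw [hMd, h2, lt01_pos (by norm_num)]
    · rw [hNd, h2, lt01_pos (by norm_num), one_mul]
    · rw [hSg, h2, eq01_neg (by norm_num)]
    · rw [hnQ x, eq01_pos h2, ifz_pos one_ne_zero]
      by_cases h3 : x / m.σ = k
      · have h4 : x + m.σ < J := by
          have h5 : x < (k + 1) * m.σ := by
            rw [← Nat.div_lt_iff_lt_mul hσ]
            omega
          have h6 := hf.h3
          have h7 : (k + 1) * m.σ + m.σ ≤ (K + 1) * m.σ := by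
            have : (k + 2) * m.σ ≤ (K + 1) * m.σ := Nat.mul_le_mul_right _ (by omega)
            calc (k + 1) * m.σ + m.σ = (k + 2) * m.σ := by ring
              _ ≤ _ := this
          omega
        rw [eq01_pos h3, ifz_pos one_ne_zero, h.qa _ h4, Nat.add_div_right _ hσ,
          Nat.add_mod_right, h3, Function.update_self]
      · rw [eq01_neg h3, ifz_zero, Function.update_of_ne h3, h.qa x hx]
    · by_cases ht2 : t = k
      · rw [ht2, Function.update_self]
        exact h.q2 _ hkK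
      · rw [Function.update_of_ne ht2]
        exact h.q2 t ht
  rw [if_neg h2]
  have hQ : ∀ x < J, m.nQ p l j a x = dig 2 (s.qa (x / m.σ)) (x % m.σ) := by
    intro x hx
    rw [hnQ x, eq01_neg h2, ifz_zero]
    unfold ifz
    split_ifs <;> exact h.qa x hx
  by_cases h3 : j % 3 = 1
  · rw [if_pos h3]
    refine build m hp h _ s.qa s.ac s.au 1 m.G 1 (fun x hx => ?_) ⟨?_, by omega⟩ ⟨?_, hG⟩
      ⟨?_, by omega⟩ hQ hAc hAu h.q2
    · rw [hnR x]
      unfold Mach.zR Mach.addR Mach.lo Mach.ln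
      rw [h3, ifz_pos one_ne_zero, Nat.sub_self, ifz_zero, if_neg (lt_irrefl _),
        if_neg (lt_irrefl _)]
      by_cases h4 : m.cl (k + 1) ≤ x ∧ x < m.cl (k + 1) + m.wc
      · rw [rgn_pos h4, ifz_pos one_ne_zero, if_pos h4, ZMod.natCast_mod, Nat.cast_add,
          Nat.cast_mul, h.Rc hx]
        congr 1
        congr 1
        · by_cases hs : g = 0
          · rw [hs, ifz_zero, sgz, if_pos rfl, Nat.cast_one]
          · rw [ifz_pos hs, sgz, if_neg hs, Nat.cast_sub (by omega), ZMod.natCast_self]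
            push_cast
            ring
        · refine hF p _ _ _ _ _ fun j' hj' => ?_
          exact vars_cast hf h le_rfl k (by omega) (by omega) j' hj'
      · rw [rgn_neg h4, ifz_zero, if_neg h4, h.Rc hx]
    · rw [hMd, h3, lt01_pos (by norm_num)]
    · rw [hNd, h3, lt01_pos (by norm_num), one_mul]
    · rw [hSg, h3, eq01_pos rfl]
  rw [if_neg h3]
  have h4 : j % 3 = 2 := by omega
  refine build m hp h _ s.qa s.ac s.au 0 0 0 (fun x hx => ?_) ⟨?_, by omega⟩ ⟨?_, by omega⟩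
    ⟨?_, by omega⟩ hQ hAc hAu h.q2
  · rw [hnR x]
    unfold Mach.zR
    rw [h4, ifz_pos two_ne_zero, ifz_pos (c := 2 - 1) (by norm_num)]
    exact sca_case h hx _ _ _ _ (invN_cast hp _)
  · rw [hMd, h4, lt01_neg (by norm_num)]
  · rw [hNd, h4, lt01_neg (by norm_num), zero_mul]
  · rw [hSg, h4, eq01_neg (by norm_num)]

theorem REL (hF : Pool.Agent.Helper78.Tok.FCAST_stmt) : Pool.Agent.Helper78.Tok.REL_stmt := by
  intro m p hpr hok J K hf
  refine ⟨fun l hl j a s h => ?_, fun a s h => ?_⟩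
  · rw [rel_iff] at h ⊢
    by_cases hm : l % (m.G + 2) = 0
    · have hop : m.op l j s = m.opE l (l / (m.G + 2)) j s := by
        unfold Mach.op
        rw [if_pos hm]
      rw [hop]
      unfold Mach.opE
      by_cases hA : s.md (l + 1) = 2 ∧ s.nd (l + 1) < m.G
      · rw [if_pos hA]
        exact relY hF hok hf h hl hm hA
      rw [if_neg hA]
      by_cases hB : s.md (l + 1) = 2 ∧ s.nd (l + 1) = m.G ∧ j < 3 * (p - 1)
      · rw [if_pos hB]
        exact relZ hF hok hf h hl hm hB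
      rw [if_neg hB]
      have hp := hf.h5
      have hJ : l + 1 < J := lt_of_le_of_lt hl hf.h2
      have e1 := h.md (l + 1) hJ
      have e2 := h.nd (l + 1) hJ
      have hN : m.isN a l = 0 := by
        unfold Mach.isN
        rw [hm, lt01_neg (lt_irrefl 0), zero_mul]
      have hP : m.isP a l j = 0 := by
        unfold Mach.isP
        rw [hm, lt01_neg (lt_irrefl 0), zero_mul]
      have hY : m.isY a l = 0 := by
        unfold Mach.isY
        rw [e1, e2, eq01_pos hm, one_mul]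
        by_cases h1 : s.md (l + 1) = 2
        · rw [lt01_neg fun h2 => hA ⟨h1, h2⟩, mul_zero]
        · rw [eq01_neg h1, zero_mul]
      have hZ : m.isZ p a l j = 0 := by
        unfold Mach.isZ
        rw [e1, e2, eq01_pos hm, one_mul]
        by_cases h1 : s.md (l + 1) = 2
        · by_cases h2 : s.nd (l + 1) = m.G
          · rw [lt01_neg fun h3 => hB ⟨h1, h2, h3⟩, mul_zero]
          · rw [eq01_neg h2, mul_zero, zero_mul]
        · rw [eq01_neg h1, zero_mul, zero_mul]
      refine rel_same hf h hY hZ s.R 0 0 0 (fun k hk => ?_) ⟨?_, by omega⟩ ⟨?_, by omega⟩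
        ⟨?_, by omega⟩
      · unfold Mach.nR
        rw [hY, hZ, hN, ifz_zero, ifz_zero, zero_mul, ifz_zero, h.Rc hk]
      · unfold Mach.cMd
        rw [hY, hZ, hN, ifz_zero, ifz_zero, ifz_zero, hP, ifz_zero]
      · unfold Mach.cNd
        rw [hY, hZ, hN, ifz_zero, ifz_zero, ifz_zero, hP, ifz_zero]
      · unfold Mach.cSg
        rw [hY, hZ, hN, ifz_zero, ifz_zero, ifz_zero, hP, ifz_zero]
    · exact relN hf h hl hm
  · have hD := (rel_iff m J K a s).1 h
    have hp := hf.h5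
    have hJ := hf.h2
    have hJ0 : 0 < J := by omega
    have hσ := hok.hσ
    have e1 : a 1 = s.md 0 := by simpa using hD.md 0 hJ0
    have e3 : a 3 = s.sg 0 := by simpa using hD.sg 0 hJ0
    have hq0 : m.qN a 0 = s.qa 0 := hD.qN hok hf (Nat.zero_le K)
    have hbase : ∀ x, m.baseA p a x = (a x + eq01 (s.md 0) 1 * (eq01 (x % 7) 0 *
        rgn (m.cl 0) m.wc (x / 7)) * (ifz (s.sg 0) 1 (p - 1) *
          dig 2 (m.q0 + 2 ^ m.σ * m.M0 (s.qa 0)) (x / 7 - m.cl 0))) % p := by
      intro x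
      unfold Mach.baseA
      rw [e1, e3, hq0]
    have ht : ∀ x < 7 * J, trc (7 * J) (m.baseA p a) x = m.baseA p a x := fun x hx => if_pos hx
    have hsame : ∀ k < J, ∀ c, 0 < c → c < 7 → m.baseA p a (7 * k + c) = a (7 * k + c) := by
      intro k hk c hc hc7
      rw [hbase, eq01_neg (x := (7 * k + c) % 7) (by omega), zero_mul, mul_zero, zero_mul,
        add_zero, Nat.mod_eq_of_lt (hD.lt _ (by omega))]
    unfold Mach.op0
    rw [rel_iff]
    by_cases hA : s.md 0 = 1
    · rw [if_pos hA]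
      refine ⟨fun x hx => ?_, fun k hk => ?_, fun k hk => ?_, fun k hk => ?_, fun k hk => ?_,
        fun k hk => ?_, fun k hk => ?_, fun k hk => ?_, hD.q2⟩
      · rw [ht x hx]
        exact Nat.mod_lt _ (by omega)
      · rw [ht _ (by omega), hbase]
        have h1 : 7 * k % 7 = 0 := by omega
        have h2 : 7 * k / 7 = k := by omega
        rw [h1, h2, eq01_pos hA, eq01_pos rfl, one_mul, one_mul, ← ZMod.val_natCast]
        congr 1
        rw [Nat.cast_add, hD.Rc hk]
        unfold Mach.addR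
        show _ = (if m.cl 0 ≤ k ∧ k < m.cl 0 + m.wc then s.R k + sgz p (s.sg 0) *
          bitZ p (m.q0 + 2 ^ m.σ * m.M0 (s.qa 0)) (k - m.cl 0) else s.R k)
        by_cases hk2 : m.cl 0 ≤ k ∧ k < m.cl 0 + m.wc
        · rw [rgn_pos hk2, one_mul, if_pos hk2, Nat.cast_mul]
          congr 1
          congr 1
          by_cases hs : s.sg 0 = 0
          · rw [hs, ifz_zero, sgz, if_pos rfl, Nat.cast_one]
          · rw [ifz_pos hs, sgz, if_neg hs, Nat.cast_sub (by omega), ZMod.natCast_self]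
            push_cast
            ring
        · rw [rgn_neg hk2, zero_mul, if_neg hk2, Nat.cast_zero, add_zero]
      · rw [ht _ (by omega), hsame k hk 1 (by norm_num) (by norm_num), hD.md k hk]
      · rw [ht _ (by omega), hsame k hk 2 (by norm_num) (by norm_num), hD.nd k hk]
      · rw [ht _ (by omega), hsame k hk 3 (by norm_num) (by norm_num), hD.sg k hk]
      · rw [ht _ (by omega), hsame k hk 4 (by norm_num) (by norm_num), hD.qa k hk]
      · rw [ht _ (by omega), hsame k hk 5 (by norm_num) (by norm_num), hD.ac k hk]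
      · rw [ht _ (by omega), hsame k hk 6 (by norm_num) (by norm_num), hD.au k hk]
    · rw [if_neg hA]
      have hall : ∀ x < 7 * J, trc (7 * J) (m.baseA p a) x = a x := by
        intro x hx
        rw [ht x hx, hbase, eq01_neg hA, zero_mul, zero_mul, add_zero,
          Nat.mod_eq_of_lt (hD.lt x hx)]
      refine ⟨fun x hx => ?_, fun k hk => ?_, fun k hk => ?_, fun k hk => ?_, fun k hk => ?_,
        fun k hk => ?_, fun k hk => ?_, fun k hk => ?_, hD.q2⟩
      · rw [hall x hx]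
        exact hD.lt x hx
      · rw [hall _ (by omega), hD.R k hk]
      · rw [hall _ (by omega), hD.md k hk]
      · rw [hall _ (by omega), hD.nd k hk]
      · rw [hall _ (by omega), hD.sg k hk]
      · rw [hall _ (by omega), hD.qa k hk]
      · rw [hall _ (by omega), hD.ac k hk]
      · rw [hall _ (by omega), hD.au k hk]

end Pool.Agent.Helper33.Tok
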