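import Pool.Agent.Helper78.Tok.Goals

/-!
# FCAST: the numeric extension is the extension
-/

namespace Pool.Agent.Helper33.Tok

open Pool.Agent.Helper65.LinSpace Finset Pool.Agent.Helper28.Ram Pool.Agent.Helper78.Tok

theorem FCAST : Pool.Agent.Helper78.Tok.FCAST_stmt := by
  intro p N hpr F q X X' hX
  unfold fhG fhat
  rw [ZMod.natCast_mod, Nat.cast_sum]
  refine sum_congr rfl fun u _ => ?_
  rw [Nat.cast_mul, ZMod.natCast_mod, Nat.cast_prod]
  unfold bitZ
  congr 1
  refine prod_congr rfl fun o ho => ?_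
  obtain ⟨h1, h2⟩ := hX o (mem_range.1 ho)
  rcases dig_two u o with h3 | h3
  · rw [h3, if_neg (by norm_num), ifz, if_pos rfl, Nat.cast_sub (by omega), h2]
    push_cast
    rw [ZMod.natCast_self, zero_add]
  · rw [h3, if_pos rfl, ifz, if_neg (by norm_num), h2]

end Pool.Agent.Helper33.Tok
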